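import Mathlib
import Pool.Agent.Q183.PlasticMain

/-!
# A dense plastic subgroup of the `ℓ₁` plane
-/

namespace Pool.Agent.Results.MP_f81d0d_gt.PlasticSubgroup

/-- the `ℓ₁` metric of the plane -/
def d1 (u v : ℝ × ℝ) : ℝ := |u.1 - v.1| + |u.2 - v.2|

/-- `f` is a non-expansive self-map of `G ⊆ ℝ²` with the metric `d1` -/
def IsNonExpansive {G : Set (ℝ × ℝ)} (f : G → G) : Prop :=
  ∀ u v : G, d1 (f u) (f v) ≤ d1 u v

/-- `G ⊆ ℝ²` with the metric `d1` is plastic: every non-expansive bijection from `G` to itself is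
an isometry -/
def IsPlastic (G : Set (ℝ × ℝ)) : Prop :=
  ∀ f : G → G, Function.Bijective f → IsNonExpansive f → ∀ u v : G, d1 (f u) (f v) = d1 u v

/-- There is a dense subgroup `G` of `ℝ²` which is plastic for the `ℓ₁` metric. Moreover every
non-expansive map from `G` to itself (bijective or not) is constant, a translation, or of the form
`u ↦ g - u`. -/
theorem result : ∃ G : AddSubgroup (ℝ × ℝ), Dense (G : Set (ℝ × ℝ)) ∧
    IsPlastic (G : Set (ℝ × ℝ)) ∧
    ∀ f : ↥(G : Set (ℝ × ℝ)) → ↥(G : Set (ℝ × ℝ)), IsNonExpansive f →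
      (∃ g, ∀ u, (f u : ℝ × ℝ) = g) ∨ (∃ g, ∀ u, (f u : ℝ × ℝ) = g + u) ∨
        ∃ g, ∀ u, (f u : ℝ × ℝ) = g - u := by
  obtain ⟨G, hG, h⟩ := Q183.PlasticMain.main
  have key : ∀ f : ↥(G : Set (ℝ × ℝ)) → ↥(G : Set (ℝ × ℝ)), IsNonExpansive f →
      (∃ g, ∀ u, (f u : ℝ × ℝ) = g) ∨ (∃ g, ∀ u, (f u : ℝ × ℝ) = g + u) ∨
        ∃ g, ∀ u, (f u : ℝ × ℝ) = g - u := by
    intro f hf
    obtain ⟨i, g, hg⟩ := h f hf
    fin_cases i
    · right; right
      refine ⟨g, fun u => ?_⟩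
      have h1 := hg u
      simp only [Q183.PlasticMain.N, Fin.zero_eta, Matrix.cons_val_zero, neg_smul, one_smul] at h1
      rw [h1]; abel
    · left
      refine ⟨g, fun u => ?_⟩
      have h1 := hg u
      simp only [Q183.PlasticMain.N, Fin.mk_one, Matrix.cons_val_one, Matrix.cons_val_zero,
        zero_smul, zero_add] at h1
      exact h1
    · right; left
      refine ⟨g, fun u => ?_⟩
      have h1 := hg u
      simp only [Q183.PlasticMain.N, Fin.reduceFinMk, Matrix.cons_val, one_smul] at h1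
      rw [h1]; abel
  refine ⟨G, hG, ?_, key⟩
  intro f hbij hf u v
  rcases key f hf with ⟨g, hg⟩ | ⟨g, hg⟩ | ⟨g, hg⟩
  · have h1 : f u = f v := Subtype.ext ((hg u).trans (hg v).symm)
    rw [hbij.1 h1]
    simp [d1]
  · unfold d1
    rw [hg u, hg v]
    simp only [Prod.fst_add, Prod.snd_add, add_sub_add_left_eq_sub]
  · unfold d1
    rw [hg u, hg v]
    simp only [Prod.fst_sub, Prod.snd_sub, sub_sub_sub_cancel_left]
    rw [abs_sub_comm, abs_sub_comm (v : ℝ × ℝ).2]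

end Pool.Agent.Results.MP_f81d0d_gt.PlasticSubgroup
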